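import Mathlib

/-!
# The automorphism group of the wreath-type blow-up of a 1-design

Let `g` be an automorphism of the blow-up `D`. In a block of `D` a point `(x, j)` outside the part that
contains a block of the small design may be replaced by any other point `(x', j)`. If `g` moved `(x, j)`
and `(x', j)` to different parts, then the numbers of points of the image of the block in two parts would
change by one, so `k` and `1` would differ by one. This settles `k ≥ 3`; for `k = 2` and at least three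
parts the remaining points form a transversal of the inverse images of the parts, and then all parts
different from the part `j`, hence all parts, are mapped to parts.
-/

set_option autoImplicit false

namespace Pool.Agent.Results.MP_482303_co.WreathBlowUp

open Finset

/-- a 1-design with point set `X`, block set `B`, block size `k` and `r` blocks through every point -/
structure IsOneDesign {X : Type} (B : Set (Finset X)) (k r : ℕ) : Prop where
  size : ∀ b ∈ B, b.card = k
  regular : ∀ x : X, {b | b ∈ B ∧ x ∈ b}.ncard = r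

/-- the automorphism group of the family `B` of finite subsets of `Y`: all permutations of `Y` that map
`B` onto itself -/
def autSet {Y : Type} (B : Set (Finset Y)) : Set (Equiv.Perm Y) :=
  {g | (fun b : Finset Y => b.map g.toEmbedding) '' B = B}

/-- the blocks of type `i` of the blow-up: a block of the small design in the part `i` and exactly one
point in each other part -/
def blocksAt {X Δ : Type} (B : Set (Finset X)) (i : Δ) : Set (Finset (X × Δ)) :=
  {S | (∃ b ∈ B, ∀ x, (x, i) ∈ S ↔ x ∈ b) ∧ ∀ j, j ≠ i → ∃! x, (x, j) ∈ S}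

/-- the blocks of the blow-up `D` -/
def blowUp {X : Type} (Δ : Type) (B : Set (Finset X)) : Set (Finset (X × Δ)) :=
  {S | ∃ i, S ∈ blocksAt B i}

/-- the wreath product of the automorphism group of `B` with the symmetric group on `Δ`, in its
imprimitive action on `X × Δ` -/
def wreath {X : Type} (Δ : Type) (B : Set (Finset X)) : Set (Equiv.Perm (X × Δ)) :=
  {g | ∃ (σ : Equiv.Perm Δ) (h : Δ → Equiv.Perm X), (∀ j, h j ∈ autSet B) ∧
    ∀ x j, g (x, j) = (h j x, σ j)}

section

variable {X Δ : Type} [Fintype X] [DecidableEq X] [Fintype Δ] [DecidableEq Δ]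

/-- number of points of `S` which `g` maps to the part `l` -/
def cn (g : Equiv.Perm (X × Δ)) (S : Finset (X × Δ)) (l : Δ) : ℕ :=
  (S.filter fun y => (g y).2 = l).card

theorem part_card {B : Set (Finset X)} {k : ℕ} (hk : ∀ b ∈ B, b.card = k) {i : Δ}
    {S : Finset (X × Δ)} (hS : S ∈ blocksAt B i) (l : Δ) :
    (S.filter fun y => y.2 = l).card = if l = i then k else 1 := by
  obtain ⟨⟨b, hb, h1⟩, h2⟩ := hS
  by_cases hl : l = i
  · rw [if_pos hl, ← hk b hb, hl]
    have : (S.filter fun y => y.2 = i) = b.map ⟨fun x => (x, i), fun a c h => (Prod.ext_iff.1 h).1⟩ := by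
      ext ⟨x, j⟩
      rw [mem_filter, mem_map]
      constructor
      · rintro ⟨hx, hj⟩
        have hj' : j = i := hj
        subst hj'
        exact ⟨x, (h1 x).1 hx, rfl⟩
      · rintro ⟨a, ha, hax⟩
        have h3 : a = x := (Prod.ext_iff.1 hax).1
        have h4 : i = j := (Prod.ext_iff.1 hax).2
        subst h3
        subst h4
        exact ⟨(h1 a).2 ha, rfl⟩
    rw [this, card_map]
  · rw [if_neg hl]
    obtain ⟨x, hx, hu⟩ := h2 l hl
    rw [card_eq_one]
    refine ⟨(x, l), ?_⟩
    ext ⟨a, j⟩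
    simp only [mem_filter, mem_singleton, Prod.mk.injEq]
    constructor
    · rintro ⟨ha, rfl⟩
      exact ⟨hu a ha, rfl⟩
    · rintro ⟨rfl, rfl⟩
      exact ⟨hx, rfl⟩

theorem cn_map (g : Equiv.Perm (X × Δ)) (S : Finset (X × Δ)) (l : Δ) :
    cn g S l = ((S.map g.toEmbedding).filter fun y => y.2 = l).card := by
  rw [cn, filter_map, card_map]
  rfl

theorem cn_eq {B : Set (Finset X)} {k : ℕ} (hk : ∀ b ∈ B, b.card = k) {g : Equiv.Perm (X × Δ)}
    (hg : g ∈ autSet (blowUp Δ B)) {S : Finset (X × Δ)} (hS : S ∈ blowUp Δ B) :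
    ∃ i, ∀ l, cn g S l = if l = i then k else 1 := by
  have h1 : S.map g.toEmbedding ∈ blowUp Δ B := by
    have h2 : (fun b : Finset (X × Δ) => b.map g.toEmbedding) '' blowUp Δ B = blowUp Δ B := hg
    rw [← h2]
    exact ⟨S, hS, rfl⟩
  obtain ⟨i, hi⟩ := h1
  exact ⟨i, fun l => by rw [cn_map]; exact part_card hk hi l⟩

/-- the block with the block `b` in the part `i` and the points `f j` in the other parts -/
def mk (b : Finset X) (i : Δ) (f : Δ → X) : Finset (X × Δ) :=
  univ.filter fun y => if y.2 = i then y.1 ∈ b else y.1 = f y.2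

theorem mem_mk (b : Finset X) (i : Δ) (f : Δ → X) (x : X) (j : Δ) :
    (x, j) ∈ mk b i f ↔ if j = i then x ∈ b else x = f j := by
  simp [mk]

theorem mk_mem {B : Set (Finset X)} {b : Finset X} (hb : b ∈ B) (i : Δ) (f : Δ → X) :
    mk b i f ∈ blocksAt B i := by
  refine ⟨⟨b, hb, fun x => ?_⟩, fun j hj => ⟨f j, ?_, fun x hx => ?_⟩⟩
  · rw [mem_mk, if_pos rfl]
  · show (f j, j) ∈ mk b i f
    rw [mem_mk, if_neg hj]
  · have hx' : (x, j) ∈ mk b i f := hx
    rwa [mem_mk, if_neg hj] at hx'

/-- the block without its point in the part `j` -/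
def rest (b : Finset X) (i j : Δ) (f : Δ → X) : Finset (X × Δ) :=
  (mk b i f).filter fun y => y.2 ≠ j

theorem mk_eq (b : Finset X) (i j : Δ) (hij : j ≠ i) (f : Δ → X) :
    mk b i f = insert (f j, j) (rest b i j f) := by
  ext ⟨x, m⟩
  rw [mem_insert, rest, mem_filter, mem_mk, Prod.mk.injEq]
  by_cases hm : m = j
  · subst hm
    rw [if_neg hij]
    simp
  · simp [hm]

theorem not_mem_rest (b : Finset X) (i j : Δ) (f : Δ → X) (x : X) : (x, j) ∉ rest b i j f := by
  rw [rest, mem_filter]
  exact fun h => h.2 rfl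

theorem rest_congr (b : Finset X) (i j : Δ) (f f' : Δ → X) (h : ∀ m, m ≠ j → f m = f' m) :
    rest b i j f = rest b i j f' := by
  ext ⟨x, m⟩
  rw [rest, rest, mem_filter, mem_filter, mem_mk, mem_mk]
  by_cases hm : m = j
  · simp [hm]
  · rw [h m hm]

theorem cn_insert (g : Equiv.Perm (X × Δ)) (T : Finset (X × Δ)) (y : X × Δ) (hy : y ∉ T) (l : Δ) :
    cn g (insert y T) l = cn g T l + if (g y).2 = l then 1 else 0 := by
  rw [cn, filter_insert]
  split_ifs with h
  · rw [card_insert_of_notMem (fun h' => hy (mem_filter.1 h').1)]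
    rfl
  · rfl

/-- if two points of the part `j` go to different parts, then `k = 2` and the rest of every block of type
`i ≠ j` is a transversal -/
theorem key {B : Set (Finset X)} {k : ℕ} (hk2 : 2 ≤ k) (hk : ∀ b ∈ B, b.card = k)
    {g : Equiv.Perm (X × Δ)} (hg : g ∈ autSet (blowUp Δ B)) {b : Finset X} (hb : b ∈ B) {i j : Δ}
    (hij : j ≠ i) {x x' : X} (hx : (g (x, j)).2 ≠ (g (x', j)).2) (f : Δ → X) :
    k = 2 ∧ ∀ l, cn g (rest b i j f) l = 1 := by
  have e1 : mk b i (Function.update f j x) = insert (x, j) (rest b i j f) := by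
    rw [mk_eq b i j hij, Function.update_self]
    congr 1
    exact rest_congr _ _ _ _ _ fun m hm => Function.update_of_ne hm _ _
  have e2 : mk b i (Function.update f j x') = insert (x', j) (rest b i j f) := by
    rw [mk_eq b i j hij, Function.update_self]
    congr 1
    exact rest_congr _ _ _ _ _ fun m hm => Function.update_of_ne hm _ _
  obtain ⟨a, ha⟩ := cn_eq hk hg ⟨i, mk_mem hb i (Function.update f j x)⟩
  obtain ⟨a', ha'⟩ := cn_eq hk hg ⟨i, mk_mem hb i (Function.update f j x')⟩
  rw [e1] at ha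
  rw [e2] at ha'
  obtain ⟨l, hl⟩ : ∃ l, l = (g (x, j)).2 := ⟨_, rfl⟩
  obtain ⟨l', hl'⟩ : ∃ l', l' = (g (x', j)).2 := ⟨_, rfl⟩
  have hne : l ≠ l' := by rw [hl, hl']; exact hx
  have h1 := ha l
  have h2 := ha' l
  rw [cn_insert g _ _ (not_mem_rest _ _ _ _ _), if_pos hl.symm] at h1
  rw [cn_insert g _ _ (not_mem_rest _ _ _ _ _), if_neg (fun h => hne (by rw [← h, hl'])),
    add_zero] at h2
  have h3 : l = a := by
    by_contra h
    rw [if_neg h] at h1
    have : cn g (rest b i j f) l = 0 := by omega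
    rw [this] at h2
    split_ifs at h2
    omega
  rw [if_pos h3] at h1
  have h4 : l ≠ a' := by
    intro h
    rw [if_pos h] at h2
    omega
  rw [if_neg h4] at h2
  refine ⟨by omega, fun m => ?_⟩
  by_cases hm : m = l
  · rw [hm]; exact h2
  · have h5 := ha m
    rw [cn_insert g _ _ (not_mem_rest _ _ _ _ _), if_neg (fun h => hm (by rw [← h, hl])), add_zero,
      if_neg (by rw [← h3]; exact hm)] at h5
    exact h5

theorem parts {B : Set (Finset X)} {k : ℕ} (hk2 : 2 ≤ k) (hk : ∀ b ∈ B, b.card = k)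
    (hor : 3 ≤ Fintype.card Δ ∨ 3 ≤ k) (hΔ : 2 ≤ Fintype.card Δ)
    {g : Equiv.Perm (X × Δ)} (hg : g ∈ autSet (blowUp Δ B)) {b : Finset X} (hb : b ∈ B) (j : Δ)
    (x x' : X) : (g (x, j)).2 = (g (x', j)).2 := by
  by_contra hx
  have hex : ∀ j : Δ, ∃ i, j ≠ i := by
    intro j
    by_contra h
    push Not at h
    have : Fintype.card Δ ≤ 1 := Fintype.card_le_one_iff.2 fun a c => (h a).symm.trans (h c)
    omega
  obtain ⟨i₀, hi₀⟩ := hex j
  have hk' : k = 2 := (key hk2 hk hg hb hi₀ hx (fun _ => x)).1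
  have h3 : 3 ≤ Fintype.card Δ := by
    rcases hor with h | h
    · exact h
    · omega
  -- the other parts go to parts
  have hother : ∀ m, m ≠ j → ∀ y y' : X, (g (y, m)).2 = (g (y', m)).2 := by
    intro m hm y y'
    obtain ⟨i, hi1, hi2⟩ : ∃ i, i ≠ j ∧ i ≠ m := by
      by_contra h
      push Not at h
      have h4 : (univ : Finset Δ) ⊆ {j, m} := by
        intro a _
        rw [mem_insert, mem_singleton]
        by_cases ha : a = j
        · exact Or.inl ha
        · exact Or.inr (h a ha)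
      have h5 := card_le_card h4
      rw [card_univ] at h5
      have h6 : ({j, m} : Finset Δ).card ≤ 2 := card_le_two
      omega
    have h7 : ∀ z : X, ∀ l, cn g (rest b i j (Function.update (fun _ => x) m z)) l = 1 :=
      fun z => (key hk2 hk hg hb (Ne.symm hi1) hx _).2
    -- the rest without the point in the part m
    obtain ⟨T, hT⟩ : ∃ T, T = (rest b i j (fun _ => x)).filter fun y => y.2 ≠ m := ⟨_, rfl⟩
    have h8 : ∀ z : X, rest b i j (Function.update (fun _ => x) m z) = insert (z, m) T := by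
      intro z
      ext ⟨c, n⟩
      rw [hT, mem_insert, mem_filter, rest, rest, mem_filter, mem_filter, mem_mk, mem_mk, Prod.mk.injEq]
      by_cases hn : n = m
      · subst hn
        rw [if_neg (Ne.symm hi2), Function.update_self]
        simp [hm]
      · rw [Function.update_of_ne hn]
        simp [hn]
    have h9 : ∀ z : X, (z, m) ∉ T := by
      intro z hz
      rw [hT, mem_filter] at hz
      exact hz.2 rfl
    have h10 := h7 y (g (y, m)).2
    have h11 := h7 y' (g (y, m)).2
    rw [h8, cn_insert g _ _ (h9 _), if_pos rfl] at h10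
    rw [h8, cn_insert g _ _ (h9 _)] at h11
    by_contra hne
    rw [if_neg (fun h => hne h.symm)] at h11
    omega
  -- count
  obtain ⟨τ, hτ⟩ : ∃ τ : Δ → Δ, ∀ m, τ m = (g (x, m)).2 := ⟨_, fun _ => rfl⟩
  have hfull : ∀ m, m ≠ j → ∀ z : X, ∃ y : X, g (y, m) = (z, τ m) := by
    intro m hm z
    have hinj : Function.Injective fun y : X => (g (y, m)).1 := by
      intro y y' h
      have h1 : g (y, m) = g (y', m) := Prod.ext h (hother m hm y y')
      exact (Prod.ext_iff.1 (g.injective h1)).1
    obtain ⟨y, hy⟩ := (Finite.injective_iff_surjective.1 hinj) z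
    exact ⟨y, Prod.ext hy (by rw [hτ]; exact hother m hm y x)⟩
  have hno : ∀ m, m ≠ j → ∀ y : X, (g (y, j)).2 ≠ τ m := by
    intro m hm y h
    obtain ⟨y', hy'⟩ := hfull m hm (g (y, j)).1
    have h1 : g (y', m) = g (y, j) := by rw [hy', ← h]
    exact hm (Prod.ext_iff.1 (g.injective h1)).2
  have hτinj : ∀ m m', m ≠ j → m' ≠ j → τ m = τ m' → m = m' := by
    intro m m' hm hm' h
    obtain ⟨y, hy⟩ := hfull m hm x
    obtain ⟨y', hy'⟩ := hfull m' hm' x
    rw [h, ← hy'] at hy
    exact (Prod.ext_iff.1 (g.injective hy)).2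
  have hsub : insert (g (x, j)).2 (insert (g (x', j)).2 ((univ.erase j).image τ)) ⊆
      (univ : Finset Δ) := subset_univ _
  have hcard := card_le_card hsub
  have hm1 : (g (x', j)).2 ∉ (univ.erase j).image τ := by
    intro h
    obtain ⟨m, hm, h'⟩ := mem_image.1 h
    exact hno m (mem_erase.1 hm).1 x' h'.symm
  have hm2 : (g (x, j)).2 ∉ insert (g (x', j)).2 ((univ.erase j).image τ) := by
    intro h
    rcases mem_insert.1 h with h | h
    · exact hx h
    · obtain ⟨m, hm, h'⟩ := mem_image.1 h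
      exact hno m (mem_erase.1 hm).1 x h'.symm
  rw [card_insert_of_notMem hm2, card_insert_of_notMem hm1, card_image_of_injOn, card_erase_of_mem
    (mem_univ j), card_univ] at hcard
  · omega
  · intro m hm m' hm' h
    have h1 : m ∈ univ.erase j := hm
    have h2 : m' ∈ univ.erase j := hm'
    exact hτinj m m' (mem_erase.1 h1).1 (mem_erase.1 h2).1 h

theorem aut_of_maps {Y : Type} [Fintype Y] [DecidableEq Y] {B : Set (Finset Y)} {h : Equiv.Perm Y}
    (hm : ∀ b ∈ B, b.map h.toEmbedding ∈ B) : h ∈ autSet B := by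
  have hinj : Function.Injective fun b : Finset Y => b.map h.toEmbedding := map_injective _
  have hsub : (fun b : Finset Y => b.map h.toEmbedding) '' B ⊆ B := by
    rintro _ ⟨b, hb, rfl⟩
    exact hm b hb
  exact Set.eq_of_subset_of_ncard_le hsub (by rw [Set.ncard_image_of_injective _ hinj])
    (Set.toFinite _)

theorem wreath_sub {B : Set (Finset X)} : wreath Δ B ⊆ autSet (blowUp Δ B) := by
  rintro g ⟨σ, h, hh, hg⟩
  apply aut_of_maps
  rintro S ⟨i, ⟨b, hb, h1⟩, h2⟩
  have hmem : ∀ x j, (h j x, σ j) ∈ S.map g.toEmbedding ↔ (x, j) ∈ S := by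
    intro x j
    rw [← hg]
    exact mem_map' g.toEmbedding
  refine ⟨σ i, ⟨b.map (h i).toEmbedding, ?_, fun x => ?_⟩, fun j hj => ?_⟩
  · have h3 : (fun b : Finset X => b.map (h i).toEmbedding) '' B = B := hh i
    rw [← h3]
    exact ⟨b, hb, rfl⟩
  · obtain ⟨y, rfl⟩ := (h i).surjective x
    rw [hmem, h1]
    exact (mem_map' (h i).toEmbedding).symm
  · obtain ⟨m, rfl⟩ := σ.surjective j
    have hm : m ≠ i := fun h => hj (by rw [h])
    obtain ⟨x, hx, hu⟩ := h2 m hm
    refine ⟨h m x, (hmem x m).2 hx, fun y hy => ?_⟩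
    obtain ⟨z, rfl⟩ := (h m).surjective y
    rw [hu z ((hmem z m).1 hy)]

theorem sub_wreath {B : Set (Finset X)} {k r : ℕ} (hB : IsOneDesign B k r) (hk2 : 2 ≤ k)
    (hr : 1 ≤ r) (hΔ : 2 ≤ Fintype.card Δ) (hor : 3 ≤ Fintype.card Δ ∨ 3 ≤ k) :
    autSet (blowUp Δ B) ⊆ wreath Δ B := by
  intro g hg
  rcases isEmpty_or_nonempty X with hX | ⟨⟨x₀⟩⟩
  · refine ⟨1, fun _ => 1, fun _ => ?_, fun x => hX.elim x⟩
    exact aut_of_maps fun b hb => by
      have : b.map (1 : Equiv.Perm X).toEmbedding = b := by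
        ext x; exact hX.elim x
      rw [this]; exact hb
  obtain ⟨b₀, hb₀⟩ : ∃ b, b ∈ B := by
    have h1 := hB.regular x₀
    have h2 : 0 < {b | b ∈ B ∧ x₀ ∈ b}.ncard := by omega
    obtain ⟨b, hb⟩ := (Set.ncard_pos (Set.toFinite _)).1 h2
    exact ⟨b, hb.1⟩
  have hp := parts hk2 hB.size hor hΔ hg hb₀
  have hinj1 : ∀ j, Function.Injective fun x : X => (g (x, j)).1 := by
    intro j y y' h
    have h1 : g (y, j) = g (y', j) := Prod.ext h (hp j y y')
    exact (Prod.ext_iff.1 (g.injective h1)).1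
  have hinj2 : Function.Injective fun j : Δ => (g (x₀, j)).2 := by
    intro j j' h
    obtain ⟨y, hy⟩ := (Finite.injective_iff_surjective.1 (hinj1 j')) (g (x₀, j)).1
    have h1 : g (y, j') = g (x₀, j) := Prod.ext hy ((hp j' y x₀).trans h.symm)
    exact (Prod.ext_iff.1 (g.injective h1)).2.symm
  obtain ⟨σ, hσ⟩ : ∃ σ : Equiv.Perm Δ, ∀ j, σ j = (g (x₀, j)).2 :=
    ⟨Equiv.ofBijective _ (Finite.injective_iff_bijective.1 hinj2), fun j => rfl⟩
  obtain ⟨h, hh⟩ : ∃ h : Δ → Equiv.Perm X, ∀ j x, h j x = (g (x, j)).1 :=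
    ⟨fun j => Equiv.ofBijective _ (Finite.injective_iff_bijective.1 (hinj1 j)), fun j x => rfl⟩
  have hgf : ∀ x j, g (x, j) = (h j x, σ j) := by
    intro x j
    rw [hh, hσ, hp j x₀ x]
  refine ⟨σ, h, fun j => ?_, hgf⟩
  apply aut_of_maps
  intro b hb
  have h1 : (mk b j (fun _ => x₀)).map g.toEmbedding ∈ blowUp Δ B := by
    have h2 : (fun b : Finset (X × Δ) => b.map g.toEmbedding) '' blowUp Δ B = blowUp Δ B := hg
    rw [← h2]
    exact ⟨_, ⟨j, mk_mem hb j _⟩, rfl⟩
  have hmem : ∀ x m, (h m x, σ m) ∈ (mk b j (fun _ => x₀)).map g.toEmbedding ↔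
      (x, m) ∈ mk b j (fun _ => x₀) := by
    intro x m
    rw [← hgf]
    exact mem_map' g.toEmbedding
  obtain ⟨i, hi⟩ := h1
  have hij : σ j = i := by
    by_contra hne
    obtain ⟨z, hz, hu⟩ := hi.2 (σ j) hne
    have h3 : b.card ≤ 1 := by
      rw [card_le_one]
      intro a ha c hc
      have h4 := hu (h j a) ((hmem a j).2 (by rw [mem_mk, if_pos rfl]; exact ha))
      have h5 := hu (h j c) ((hmem c j).2 (by rw [mem_mk, if_pos rfl]; exact hc))
      exact (h j).injective (h4.trans h5.symm)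
    rw [hB.size b hb] at h3
    omega
  obtain ⟨⟨b', hb', h6⟩, -⟩ := hi
  have h7 : b.map (h j).toEmbedding = b' := by
    ext y
    obtain ⟨x, rfl⟩ := (h j).surjective y
    rw [← h6, ← hij, hmem, mem_mk, if_pos rfl]
    exact mem_map' (h j).toEmbedding
  rw [h7]
  exact hb'

end

/-- For every 1-design with block size `k ≥ 2` and every index set `Δ` with at least two elements, such
that `Δ` has at least three elements or `k ≥ 3`, the automorphism group of the blow-up is the wreath
product. -/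
theorem result (X Δ : Type) [Finite X] [Fintype Δ] (B : Set (Finset X)) (k r : ℕ)
    (hB : IsOneDesign B k r) (hk : 2 ≤ k) (hr : 1 ≤ r) (hΔ : 2 ≤ Fintype.card Δ)
    (hor : 3 ≤ Fintype.card Δ ∨ 3 ≤ k) : autSet (blowUp Δ B) = wreath Δ B := by
  classical
  have := Fintype.ofFinite X
  exact Set.Subset.antisymm (sub_wreath hB hk hr hΔ hor) wreath_sub

end Pool.Agent.Results.MP_482303_co.WreathBlowUp
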